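import Pool.Agent.Helper67.SP.RegBase

/-! # REG: weak solutions are holomorphic -/

open Complex Metric Set Filter Topology MeasureTheory
open scoped ContDiff ComplexConjugate ComplexOrder

namespace Pool.Agent.Helper67.SP

open Pool.Agent.Helper95.Lin Pool.Agent.Helper10.SP

universe u

/-! ## Hermitian forms -/

section herm

variable {n : ℕ}

theorem hermi_nonneg {A : Matrix (Fin n) (Fin n) ℂ} (hA : A.PosDef) (x : Fin n → ℂ) :
    0 ≤ (hermi A x x).re := by
  have h1 := hA.transpose.posSemidef.dotProduct_mulVec_nonneg x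
  have h2 : hermi A x x = star x ⬝ᵥ A.transpose.mulVec x := by
    simp only [hermi, dotProduct, Matrix.mulVec, Matrix.transpose_apply, Finset.mul_sum,
      Pi.star_apply]
    rw [Finset.sum_comm]
    refine Finset.sum_congr rfl fun j _ => Finset.sum_congr rfl fun i _ => ?_
    change A i j * x i * conj (x j) = conj (x j) * (A i j * x i)
    ring
  rw [h2]
  exact (Complex.le_def.1 h1).1

theorem hermi_conj {A : Matrix (Fin n) (Fin n) ℂ} (hA : A.IsHermitian) (ξ η : Cn n) :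
    hermi A ξ η = conj (hermi A η ξ) := by
  unfold hermi
  rw [map_sum, Finset.sum_comm]
  refine Finset.sum_congr rfl fun j _ => ?_
  rw [map_sum]
  refine Finset.sum_congr rfl fun i _ => ?_
  have h1 : conj (A j i) = A i j := hA.apply i j
  rw [map_mul, map_mul, h1, Complex.conj_conj]
  ring

theorem hermi_sub_left (A : Matrix (Fin n) (Fin n) ℂ) (a b c : Cn n) :
    hermi A (a - b) c = hermi A a c - hermi A b c := by
  unfold hermi
  simp only [← Finset.sum_sub_distrib, Pi.sub_apply]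
  refine Finset.sum_congr rfl fun i _ => Finset.sum_congr rfl fun j _ => ?_
  ring

theorem hermi_sub_right (A : Matrix (Fin n) (Fin n) ℂ) (a b c : Cn n) :
    hermi A c (a - b) = hermi A c a - hermi A c b := by
  unfold hermi
  simp only [← Finset.sum_sub_distrib, Pi.sub_apply, map_sub]
  refine Finset.sum_congr rfl fun i _ => Finset.sum_congr rfl fun j _ => ?_
  ring

theorem herm_ineq {A : Matrix (Fin n) (Fin n) ℂ} (hA : A.PosDef) (a b : Cn n) :
    (hermi A a a).re ≤ (hermi A (a - b) (a - b)).re + 2 * (hermi A a b).re := by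
  rw [hermi_sub_left, hermi_sub_right, hermi_sub_right, hermi_conj hA.isHermitian b a]
  have h := hermi_nonneg hA b
  simp only [sub_re, conj_re]
  linarith

end herm

section main

variable {n : ℕ} {T : Set (Cn n)} {G : Type u} [Group G] {R : G → Cn n → Cn n → Prop}
  {H : Cn n → Matrix (Fin n) (Fin n) ℂ} {κ : Cn n → ℝ} {m : ℕ} {W : Cn n → ℝ}

/-- Sections form a group. -/
theorem sec_sub {s t : Cn n → ℂ} (hs : Sec T R m s) (ht : Sec T R m t) :
    Sec T R m (fun x => s x - t x) := by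
  refine ⟨hs.1.sub ht.1, fun U τ hA x hx => ?_⟩
  show s x - t x = (s (τ x) - t (τ x)) * (fderiv ℂ τ x).det ^ m
  rw [hs.2 U τ hA x hx, ht.2 U τ hA x hx]
  ring

theorem tsupport_kap (κ : Cn n → ℝ) : tsupport (fun x => (κ x : ℂ)) = tsupport κ := by
  unfold tsupport
  congr 1
  ext x
  simp

theorem kap_tc (hκ : IsPUE T R κ) : TC T (fun x => (κ x : ℂ)) := by
  refine ⟨Complex.ofRealCLM.contDiff.comp hκ.test.1, ?_, ?_⟩
  · unfold HasCompactSupport
    rw [tsupport_kap]
    exact hκ.test.2.1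
  · rw [tsupport_kap]
    exact hκ.test.2.2

theorem kap_off {x : Cn n} (hx : x ∉ tsupport κ) : κ x = 0 :=
  image_eq_zero_of_notMem_tsupport hx

/-- The integrand of `dipE`. -/
theorem dip_int (hT : IsOpen T) (hκ : IsPUE T R κ) (hW : ContinuousOn W T)
    (hH : ∀ j k, ContDiffOn ℝ ∞ (fun x => (H x)⁻¹ j k) T) {s t : Cn n → ℂ}
    (hs : ContDiffOn ℝ ∞ s T) (ht : ContDiffOn ℝ ∞ t T) :
    IntegrableOn (fun x => ((κ x * W x : ℝ) : ℂ) * dbp H s t x) T := by
  refine (int_on hT hκ.test.2.1.isCompact hκ.test.2.2 ?_ ?_).2.1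
  · refine ContinuousOn.mul ?_ ?_
    · exact Complex.continuous_ofReal.comp_continuousOn
        (hκ.test.1.continuous.continuousOn.mul hW)
    · unfold dbp
      refine continuousOn_finsetSum _ fun j _ => continuousOn_finsetSum _ fun k _ => ?_
      refine ((hH j k).continuousOn.mul (contDiffOn_cd hT hs j).2.continuousOn).mul ?_
      exact Complex.continuous_conj.comp_continuousOn (contDiffOn_cd hT ht k).2.continuousOn
  · intro x hx
    rw [kap_off hx]
    simp

/-- The integrand of `ipE`. -/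
theorem ip_int (hT : IsOpen T) (hκ : IsPUE T R κ) (hW : ContinuousOn W T) {s t : Cn n → ℂ}
    (hs : ContinuousOn s T) (ht : ContinuousOn t T) :
    IntegrableOn (fun x => ((κ x * W x : ℝ) : ℂ) * (s x * conj (t x))) T ∧
    ipE T κ W s t = ∫ x in tsupport κ, s x * (((κ x * W x : ℝ) : ℂ) * conj (t x)) := by
  obtain ⟨-, h1, h2⟩ := int_on hT hκ.test.2.1.isCompact hκ.test.2.2
    (q := fun x => ((κ x * W x : ℝ) : ℂ) * (s x * conj (t x))) (by
      refine ContinuousOn.mul ?_ (hs.mul (Complex.continuous_conj.comp_continuousOn ht))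
      exact Complex.continuous_ofReal.comp_continuousOn
        (hκ.test.1.continuous.continuousOn.mul hW)) (by
      intro x hx
      rw [kap_off hx]
      simp)
  refine ⟨h1, ?_⟩
  unfold ipE
  rw [h2]
  refine integral_congr_ae (Eventually.of_forall fun x => ?_)
  show ((κ x * W x : ℝ) : ℂ) * (s x * conj (t x)) = s x * (((κ x * W x : ℝ) : ℂ) * conj (t x))
  ring

/-- Bound of `nsE` by the integral over the support. -/
theorem ns_le (hT : IsOpen T) (hκ : IsPUE T R κ) (hW : ContinuousOn W T) :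
    ∃ B : ℝ, 0 ≤ B ∧ ∀ s : Cn n → ℂ, ContinuousOn s T →
      nsE T κ W s ≤ B * ∫ x in tsupport κ, ‖s x‖ ^ 2 := by
  have hC := hκ.test.2.1.isCompact
  obtain ⟨K, hK⟩ := hC.exists_bound_of_continuousOn
    ((hκ.test.1.continuous.continuousOn.mul hW).mono hκ.test.2.2)
  refine ⟨max K 0, le_max_right _ _, fun s hs => ?_⟩
  obtain ⟨h1, -, h2⟩ := int_on hT hC hκ.test.2.2 (q := fun x => κ x * W x * ‖s x‖ ^ 2)
    ((hκ.test.1.continuous.continuousOn.mul hW).mul (hs.norm.pow 2)) (by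
      intro x hx
      rw [kap_off hx]
      simp)
  have h3 : IntegrableOn (fun x => ‖s x‖ ^ 2) (tsupport κ) :=
    ((hs.norm.pow 2).mono hκ.test.2.2).integrableOn_compact hC
  unfold nsE
  rw [h2, ← integral_const_mul]
  refine setIntegral_mono_on h1 (h3.const_mul _) hC.measurableSet fun x hx => ?_
  refine mul_le_mul_of_nonneg_right ?_ (by positivity)
  exact (le_abs_self _).trans ((hK x hx).trans (le_max_left _ _))

theorem ns_nonneg (hT : IsOpen T) (hκ : IsPUE T R κ) (hW : ∀ x ∈ T, 0 < W x) (s : Cn n → ℂ) :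
    0 ≤ nsE T κ W s :=
  setIntegral_nonneg hT.measurableSet fun x hx =>
    mul_nonneg (mul_nonneg (hκ.nonneg x) (hW x hx).le) (by positivity)

theorem dip_re (hT : IsOpen T) (hκ : IsPUE T R κ) (hW' : ContinuousOn W T)
    (hH : ∀ j k, ContDiffOn ℝ ∞ (fun x => (H x)⁻¹ j k) T) {s t : Cn n → ℂ}
    (hs : ContDiffOn ℝ ∞ s T) (ht : ContDiffOn ℝ ∞ t T) :
    IntegrableOn (fun x => κ x * W x * (dbp H s t x).re) T ∧
      (dipE T κ W H s t).re = ∫ x in T, κ x * W x * (dbp H s t x).re := by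
  have h1 := dip_int hT hκ hW' hH hs ht
  have h2 : ∀ x, (((κ x * W x : ℝ) : ℂ) * dbp H s t x).re = κ x * W x * (dbp H s t x).re :=
    fun x => Complex.re_ofReal_mul _ _
  constructor
  · have h3 := h1.re
    refine h3.congr (Eventually.of_forall fun x => ?_)
    exact h2 x
  · have h3 := Complex.reCLM.integral_comp_comm h1
    unfold dipE
    refine h3.symm.trans (integral_congr_ae (Eventually.of_forall fun x => ?_))
    exact h2 x

theorem dip_nonneg (hT : IsOpen T) (hκ : IsPUE T R κ) (hW : ∀ x ∈ T, 0 < W x)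
    (hW' : ContinuousOn W T) (hH : ∀ j k, ContDiffOn ℝ ∞ (fun x => (H x)⁻¹ j k) T)
    (hpos : ∀ x ∈ T, (H x)⁻¹.PosDef) {s : Cn n → ℂ} (hs : ContDiffOn ℝ ∞ s T) :
    0 ≤ (dipE T κ W H s s).re := by
  rw [(dip_re hT hκ hW' hH hs hs).2]
  refine setIntegral_nonneg hT.measurableSet fun x hx => ?_
  exact mul_nonneg (mul_nonneg (hκ.nonneg x) (hW x hx).le) (hermi_nonneg (hpos x hx) _)

theorem dip_ineq (hT : IsOpen T) (hκ : IsPUE T R κ) (hW : ∀ x ∈ T, 0 < W x)
    (hW' : ContinuousOn W T) (hH : ∀ j k, ContDiffOn ℝ ∞ (fun x => (H x)⁻¹ j k) T)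
    (hpos : ∀ x ∈ T, (H x)⁻¹.PosDef) {a b : Cn n → ℂ} (ha : ContDiffOn ℝ ∞ a T)
    (hb : ContDiffOn ℝ ∞ b T) :
    (dipE T κ W H a a).re ≤ (dipE T κ W H (fun x => a x - b x) fun x => a x - b x).re +
      2 * (dipE T κ W H a b).re := by
  obtain ⟨h1, h1'⟩ := dip_re hT hκ hW' hH ha ha
  obtain ⟨h2, h2'⟩ := dip_re hT hκ hW' hH (ha.sub hb) (ha.sub hb)
  obtain ⟨h3, h3'⟩ := dip_re hT hκ hW' hH ha hb
  rw [h1', h2', h3', ← integral_const_mul, ← integral_add h2 (h3.const_mul 2)]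
  refine setIntegral_mono_on h1 (h2.add (h3.const_mul 2)) hT.measurableSet fun x hx => ?_
  have hn := hT.mem_nhds hx
  have hd : (fun j => cdb j (fun x => a x - b x) x) =
      (fun j => cdb j a x) - fun j => cdb j b x := by
    funext j
    exact cdb_sub ((ha.contDiffAt hn).differentiableAt (by simp))
      ((hb.contDiffAt hn).differentiableAt (by simp)) j
  have h4 := herm_ineq (hpos x hx) (fun j => cdb j a x) (fun j => cdb j b x)
  rw [← hd] at h4
  have h5 : 0 ≤ κ x * W x := mul_nonneg (hκ.nonneg x) (hW x hx).le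
  have h6 := mul_le_mul_of_nonneg_left h4 h5
  have e1 : (dbp H a a x).re = (hermi (H x)⁻¹ (fun j => cdb j a x) (fun j => cdb j a x)).re := rfl
  have e3 : (dbp H a b x).re = (hermi (H x)⁻¹ (fun j => cdb j a x) (fun j => cdb j b x)).re := rfl
  have e4 : (dbp H (fun x => a x - b x) (fun x => a x - b x) x).re =
    (hermi (H x)⁻¹ (fun j => cdb j (fun x => a x - b x) x)
      (fun j => cdb j (fun x => a x - b x) x)).re := rfl
  show κ x * W x * (dbp H a a x).re ≤ κ x * W x *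
    (dbp H (fun x => a x - b x) (fun x => a x - b x) x).re + 2 * (κ x * W x * (dbp H a b x).re)
  rw [e1, e3, e4]
  linarith

/-- Automorphic sums are additive. -/
theorem aut_sub (hLF : S_LFIN.{u}) (hE : Et T R) {C : Set (Cn n)} (hCT : C ⊆ T)
    (hC : IsCompact C) {η₁ η₂ : Cn n → ℂ} (h1 : ∀ x ∉ C, η₁ x = 0) (h2 : ∀ x ∉ C, η₂ x = 0)
    {x : Cn n} (hx : x ∈ T) : aut R m (fun y => η₁ y - η₂ y) x = aut R m η₁ x - aut R m η₂ x := by
  obtain ⟨U, k, γ, τ, hxU, -, -, -, -, -, h⟩ := hLF T R hE C hCT hC x hx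
  unfold aut
  rw [h ℂ (fun γ y => (η₁ y - η₂ y) * aJ R γ x y ^ m) (fun γ' y hy => by
      show (η₁ y - η₂ y) * _ = 0
      rw [h1 y hy, h2 y hy, sub_zero, zero_mul]) x hxU,
    h ℂ (fun γ y => η₁ y * aJ R γ x y ^ m) (fun γ' y hy => by
      show η₁ y * _ = 0
      rw [h1 y hy, zero_mul]) x hxU,
    h ℂ (fun γ y => η₂ y * aJ R γ x y ^ m) (fun γ' y hy => by
      show η₂ y * _ = 0
      rw [h2 y hy, zero_mul]) x hxU, ← Finset.sum_sub_distrib]
  refine Finset.sum_congr rfl fun i _ => ?_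
  ring

/-- The weak form of the equation. -/
theorem weak_eq (hWIRT : S_WIRT) (hT : IsOpen T) (hW' : ContDiffOn ℝ ∞ W T)
    (hH : ∀ j k, ContDiffOn ℝ ∞ (fun x => (H x)⁻¹ j k) T) {s ζ : Cn n → ℂ}
    (hs : ContDiffOn ℝ ∞ s T) (hζ : TC T ζ) :
    ∫ x in T, (W x : ℂ) * dbp H s (fun y => conj (ζ y)) x = - ∫ x in T, s x *
      ∑ k, ∑ j, cdb k (fun y => ((W y : ℂ) • (H y)⁻¹) k j * cd j ζ y) x := by
  have hA : ∀ k j, ContDiffOn ℝ ∞ (fun y => ((W y : ℂ) • (H y)⁻¹) k j) T := fun k j =>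
    (Complex.ofRealCLM.contDiff.comp_contDiffOn hW').mul (hH k j)
  have hφ : ∀ k j, TC T (fun y => ((W y : ℂ) • (H y)⁻¹) k j * cd j ζ y) := fun k j =>
    tc_mul hT (tc_cd hζ j).1 (hA k j)
  have h1 : ∀ x, (W x : ℂ) * dbp H s (fun y => conj (ζ y)) x =
      ∑ k, ∑ j, (((W x : ℂ) • (H x)⁻¹) k j * cd j ζ x) * cdb k s x := by
    intro x
    unfold dbp
    rw [Finset.mul_sum]
    refine Finset.sum_congr rfl fun k _ => ?_
    rw [Finset.mul_sum]
    refine Finset.sum_congr rfl fun j _ => ?_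
    have h2 := ((hWIRT univ isOpen_univ ζ ζ hζ.smooth.contDiffOn
      hζ.smooth.contDiffOn).2.2.2.1 j x trivial).2
    rw [h2, Complex.conj_conj, Matrix.smul_apply, smul_eq_mul]
    ring
  have h3 : ∀ k j, IntegrableOn (fun x => (((W x : ℂ) • (H x)⁻¹) k j * cd j ζ x) * cdb k s x)
      T := by
    intro k j
    have h4 := tc_mul hT (hφ k j) (contDiffOn_cd hT hs k).2
    refine (tc_integrable h4).integrableOn.congr (Eventually.of_forall fun x => ?_)
    exact mul_comm _ _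
  have h5 : ∀ k j, IntegrableOn (fun x => s x *
      cdb k (fun y => ((W y : ℂ) • (H y)⁻¹) k j * cd j ζ y) x) T := fun k j =>
    (tc_integrable (tc_mul hT (tc_cd (hφ k j) k).2 hs)).integrableOn
  simp only [h1, Finset.mul_sum]
  rw [integral_finsetSum _ fun k _ => integrable_finsetSum _ fun j _ => h3 k j,
    integral_finsetSum _ fun k _ => integrable_finsetSum _ fun j _ => h5 k j,
    ← Finset.sum_neg_distrib]
  refine Finset.sum_congr rfl fun k _ => ?_
  rw [integral_finsetSum _ fun j _ => h3 k j, integral_finsetSum _ fun j _ => h5 k j,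
    ← Finset.sum_neg_distrib]
  refine Finset.sum_congr rfl fun j _ => ?_
  exact ibp hT hs (hφ k j) k

/-- Limits of sections are sections. -/
theorem sec_lim (hARRB : S_ARRB.{u}) (hE : Et T R) {s : ℕ → Cn n → ℂ} {g : Cn n → ℂ}
    (hs : ∀ j, Sec T R m (s j)) (hg : DifferentiableOn ℂ g T)
    (hlim : ∀ C ⊆ T, IsCompact C → Tendsto (fun j => ∫ x in C, ‖s j x - g x‖ ^ 2) atTop (𝓝 0)) :
    Sec T R m g := by
  have hT := hE.isOpen
  refine ⟨holo_contDiffOn_real hT hg, ?_⟩
  rintro U τ ⟨hU, hτ, γ, hγ⟩ x₀ hx₀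
  obtain ⟨hb1, -, hb3, -, -⟩ := hARRB T R hE
  have hUT : U ⊆ T := fun x hx => (hE.mem _ _ _ (hγ x hx)).1
  have hτT : ∀ x ∈ U, τ x ∈ T := fun x hx => (hE.mem _ _ _ (hγ x hx)).2
  obtain ⟨U₁, τ₁, σ, hx₁, hU₁T, hL1, hτ₁x, hinj, hL2, hσ⟩ := hb1 γ x₀ (τ x₀) (hγ x₀ hx₀)
  have hev := hb3 γ U U₁ τ τ₁ ⟨hU, hτ, hγ⟩ hL1 x₀ hx₀ hx₁ hτ₁x.symm
  obtain ⟨r', hr', hr'T⟩ : ∃ r > 0, closedBall (τ x₀) r ⊆ T :=
    nhds_basis_closedBall.mem_iff.1 (hT.mem_nhds (hτT x₀ hx₀))
  have hcont : ContinuousAt τ x₀ := (hτ.differentiableAt (hU.mem_nhds hx₀)).continuousAt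
  have hset : {x | x ∈ U ∧ x ∈ U₁ ∧ τ x = τ₁ x ∧ τ x ∈ ball (τ x₀) r'} ∈ 𝓝 x₀ := by
    filter_upwards [hU.mem_nhds hx₀, hL1.1.mem_nhds hx₁, hev,
      hcont (ball_mem_nhds (τ x₀) hr')] with x h1 h2 h3 h4
    exact ⟨h1, h2, h3, h4⟩
  obtain ⟨r, hr, hrV⟩ := nhds_basis_closedBall.mem_iff.1 hset
  have hC : IsCompact (closedBall x₀ r ∪ closedBall (τ x₀) r') :=
    (isCompact_closedBall _ _).union (isCompact_closedBall _ _)
  have hCT : closedBall x₀ r ∪ closedBall (τ x₀) r' ⊆ T :=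
    union_subset (fun x hx => hUT (hrV hx).1) hr'T
  obtain ⟨ns, -, hns⟩ := subseq (μ := volume.restrict (closedBall x₀ r ∪ closedBall (τ x₀) r'))
    (fun j => memLp_on hC ((hs j).1.continuousOn.mono hCT))
    (memLp_on hC (hg.continuousOn.mono hCT)) (hlim _ hCT hC)
  rw [ae_restrict_iff' hC.isClosed.measurableSet] at hns
  set Z : Set (Cn n) := {x | ¬ (x ∈ closedBall x₀ r ∪ closedBall (τ x₀) r' →
    Tendsto (fun i => s (ns i) x) atTop (𝓝 (g x)))} with hZ
  have hZ0 : volume Z = 0 := hns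
  have hZ1 : volume (σ '' (Z ∩ τ₁ '' U₁)) = 0 := by
    refine addHaar_image_eq_zero_of_differentiableOn_of_addHaar_eq_zero volume ?_
      (measure_mono_null inter_subset_left hZ0)
    exact (hL2.2.1.mono inter_subset_right).restrictScalars ℝ
  have hae : ∀ᵐ x ∂(volume : Measure (Cn n)), x ∈ ball x₀ r →
      g x = g (τ x) * (fderiv ℂ τ x).det ^ m := by
    have h1 : ∀ᵐ x ∂(volume : Measure (Cn n)), x ∉ Z := measure_eq_zero_iff_ae_notMem.1 hZ0
    have h2 : ∀ᵐ x ∂(volume : Measure (Cn n)), x ∉ σ '' (Z ∩ τ₁ '' U₁) :=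
      measure_eq_zero_iff_ae_notMem.1 hZ1
    filter_upwards [h1, h2] with x hx1 hx2 hxb
    have hxc : x ∈ closedBall x₀ r := ball_subset_closedBall hxb
    obtain ⟨hxU, hxU₁, hxe, hxb'⟩ := hrV hxc
    have h3 : Tendsto (fun i => s (ns i) x) atTop (𝓝 (g x)) := by
      by_contra h
      exact hx1 fun h' => h (h' (Or.inl hxc))
    have h4 : Tendsto (fun i => s (ns i) (τ x)) atTop (𝓝 (g (τ x))) := by
      by_contra h
      apply hx2
      refine ⟨τ x, ⟨fun h' => h (h' (Or.inr (ball_subset_closedBall hxb'))), ?_⟩, ?_⟩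
      · rw [hxe]
        exact mem_image_of_mem _ hxU₁
      · rw [hxe]
        exact hσ x hxU₁
    have h5 := h4.mul_const ((fderiv ℂ τ x).det ^ m)
    refine tendsto_nhds_unique h3 (h5.congr fun i => ?_)
    exact ((hs (ns i)).2 U τ ⟨hU, hτ, γ, hγ⟩ x hxU).symm
  have hball : ball x₀ r ⊆ U := fun x hx => (hrV (ball_subset_closedBall hx)).1
  have hfin := Measure.eqOn_open_of_ae_eq (μ := (volume : Measure (Cn n))) (U := ball x₀ r)
    (f := g) (g := fun x => g (τ x) * (fderiv ℂ τ x).det ^ m)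
    ((ae_restrict_iff' measurableSet_ball).2 hae) isOpen_ball
    (hg.continuousOn.mono (hball.trans hUT)) (by
      refine ContinuousOn.mul ?_ ?_
      · exact hg.continuousOn.comp (hτ.continuousOn.mono hball) fun x hx => hτT x (hball hx)
      · refine ContinuousOn.pow ?_ m
        exact ContinuousLinearMap.continuous_det.comp_continuousOn
          ((holo_fderiv hU hτ).continuousOn.mono hball))
  exact hfin (mem_ball_self hr)

/-- Bounds for the partition function. -/
theorem kap_bound (hκ : IsPUE T R κ) : ∃ K : ℝ, 0 ≤ K ∧ (∀ x, |κ x| ≤ K) ∧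
    ∀ l x, ‖cdb l (fun y => (κ y : ℂ)) x‖ ≤ K := by
  have hk := kap_tc hκ
  obtain ⟨K0, h0⟩ := hk.smooth.continuous.bounded_above_of_compact_support hk.cpt
  have h1 : ∀ l : Fin n, ∃ K, ∀ x, ‖cdb l (fun y => (κ y : ℂ)) x‖ ≤ K := fun l =>
    (tc_cd hk l).2.smooth.continuous.bounded_above_of_compact_support (tc_cd hk l).2.cpt
  choose K1 h1 using h1
  refine ⟨|K0| + ∑ l, |K1 l|, by positivity, fun x => ?_, fun l x => ?_⟩
  · have h2 := h0 x
    rw [Complex.norm_real, Real.norm_eq_abs] at h2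
    have h3 : 0 ≤ ∑ l, |K1 l| := Finset.sum_nonneg fun l _ => abs_nonneg _
    have h4 := le_abs_self K0
    linarith
  · have h2 := h1 l x
    have h3 : |K1 l| ≤ ∑ l, |K1 l| :=
      Finset.single_le_sum (f := fun l => |K1 l|) (fun l _ => abs_nonneg _) (Finset.mem_univ l)
    have h4 := le_abs_self (K1 l)
    have h5 := abs_nonneg K0
    linarith

theorem cdb_bound (hκ : IsPUE T R κ) {K : ℝ} (hK1 : ∀ x, |κ x| ≤ K)
    (hK2 : ∀ l x, ‖cdb l (fun y => (κ y : ℂ)) x‖ ≤ K) {F F' : Cn n → ℂ} (hF : ContDiff ℝ ∞ F)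
    (hF' : ContDiff ℝ ∞ F') (x : Cn n) :
    ∑ l, ‖cdb l (fun y => (κ y : ℂ) * F y - (κ y : ℂ) * F' y) x‖ ^ 2 ≤
      2 * K ^ 2 * ∑ l, ‖cdb l F x - cdb l F' x‖ ^ 2 + 2 * K ^ 2 * n * ‖F x - F' x‖ ^ 2 := by
  have h1 : ∀ l : Fin n, ‖cdb l (fun y => (κ y : ℂ) * F y - (κ y : ℂ) * F' y) x‖ ^ 2 ≤
      2 * K ^ 2 * ‖cdb l F x - cdb l F' x‖ ^ 2 + 2 * K ^ 2 * ‖F x - F' x‖ ^ 2 := by
    intro l
    have hkd : DifferentiableAt ℝ (fun y => (κ y : ℂ)) x :=
      (kap_tc hκ).smooth.differentiable (by simp) x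
    have hFd : DifferentiableAt ℝ F x := hF.differentiable (by simp) x
    have hFd' : DifferentiableAt ℝ F' x := hF'.differentiable (by simp) x
    have hm1 : DifferentiableAt ℝ (fun y => (κ y : ℂ) * F y) x := hkd.mul hFd
    have hm2 : DifferentiableAt ℝ (fun y => (κ y : ℂ) * F' y) x := hkd.mul hFd'
    rw [cdb_sub hm1 hm2, cdb_mul hkd hFd, cdb_mul hkd hFd']
    have e : (κ x : ℂ) * cdb l F x + F x * cdb l (fun y => (κ y : ℂ)) x -
        ((κ x : ℂ) * cdb l F' x + F' x * cdb l (fun y => (κ y : ℂ)) x) =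
        (κ x : ℂ) * (cdb l F x - cdb l F' x) +
          (F x - F' x) * cdb l (fun y => (κ y : ℂ)) x := by ring
    rw [e]
    have h2 := norm_add_le ((κ x : ℂ) * (cdb l F x - cdb l F' x))
      ((F x - F' x) * cdb l (fun y => (κ y : ℂ)) x)
    rw [norm_mul, norm_mul, Complex.norm_real, Real.norm_eq_abs] at h2
    have h3 : |κ x| * ‖cdb l F x - cdb l F' x‖ ≤ K * ‖cdb l F x - cdb l F' x‖ :=
      mul_le_mul_of_nonneg_right (hK1 x) (norm_nonneg _)
    have h4 : ‖F x - F' x‖ * ‖cdb l (fun y => (κ y : ℂ)) x‖ ≤ K * ‖F x - F' x‖ := by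
      rw [mul_comm]
      exact mul_le_mul_of_nonneg_right (hK2 l x) (norm_nonneg _)
    have h5 : ‖(κ x : ℂ) * (cdb l F x - cdb l F' x) +
          (F x - F' x) * cdb l (fun y => (κ y : ℂ)) x‖ ≤
        K * ‖cdb l F x - cdb l F' x‖ + K * ‖F x - F' x‖ := by linarith
    have h6 := pow_le_pow_left₀ (norm_nonneg _) h5 2
    nlinarith [sq_nonneg (K * ‖cdb l F x - cdb l F' x‖ - K * ‖F x - F' x‖)]
  calc ∑ l, ‖cdb l (fun y => (κ y : ℂ) * F y - (κ y : ℂ) * F' y) x‖ ^ 2
      ≤ ∑ l : Fin n, (2 * K ^ 2 * ‖cdb l F x - cdb l F' x‖ ^ 2 +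
        2 * K ^ 2 * ‖F x - F' x‖ ^ 2) := Finset.sum_le_sum fun l _ => h1 l
    _ = _ := by
      rw [Finset.sum_add_distrib, ← Finset.mul_sum, Finset.sum_const, Finset.card_univ,
        Fintype.card_fin, nsmul_eq_mul]
      ring

end main

/-- REG. -/
theorem reg (hWIRT : S_WIRT) (hARRB : S_ARRB.{u}) (hDETI : S_DETI.{u}) (hLFIN : S_LFIN.{u})
    (hBOX : S_BOX.{u}) (hL2C : S_L2C.{u}) (hAUT : S_AUT.{u}) (hREGL : S_REGL) (hHOLL : S_HOLL)
    (hL2LIM : S_L2LIM) : S_REG.{u} := by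
  intro n T G _ R H hK κ hκ m W hWt s hs hcau hweak
  have hT := hK.et.isOpen
  obtain ⟨hd1, -, hHs, -⟩ := hDETI T R H hK
  have hposI : ∀ x ∈ T, (H x)⁻¹.PosDef := fun x hx => (hd1 x hx).2.2.1
  have hW := hWt.pos
  have hW' := hWt.smooth.continuousOn
  have hC0 : IsCompact (tsupport κ) := hκ.test.2.1.isCompact
  have hC0T : tsupport κ ⊆ T := hκ.test.2.2
  obtain ⟨K, hK0, hK1, hK2⟩ := kap_bound hκ
  -- local bounds
  have hL : ∀ C ⊆ T, IsCompact C → ∃ B : ℝ, 0 ≤ B ∧ ∀ s, Sec T R m s →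
      ∫ x in C, ‖s x‖ ^ 2 ≤ B * nsE T κ W s ∧
      ∫ x in C, ∑ j, ‖cdb j s x‖ ^ 2 ≤ B * (dipE T κ W H s s).re := by
    intro C hCT hC
    obtain ⟨B, hB⟩ := hL2C T R H hK κ hκ m W hWt C hCT hC
    refine ⟨max B 0, le_max_right _ _, fun s hs => ⟨(hB s hs).1.trans ?_, (hB s hs).2.trans ?_⟩⟩
    · exact mul_le_mul_of_nonneg_right (le_max_left _ _) (ns_nonneg hT hκ hW s)
    · exact mul_le_mul_of_nonneg_right (le_max_left _ _)
        (dip_nonneg hT hκ hW hW' hHs hposI hs.1)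
  -- Cauchy on compact sets
  have hcauC : ∀ C ⊆ T, IsCompact C → ∀ ε > 0, ∃ J, ∀ i ≥ J, ∀ j ≥ J,
      ∫ x in C, ‖s i x - s j x‖ ^ 2 ≤ ε := by
    intro C hCT hC ε hε
    obtain ⟨B, hB0, hB⟩ := hL C hCT hC
    obtain ⟨J, hJ⟩ := hcau (ε / (B + 1)) (by positivity)
    refine ⟨J, fun i hi j hj => ?_⟩
    refine ((hB _ (sec_sub (hs i) (hs j))).1).trans ?_
    have h1 := mul_le_mul_of_nonneg_left (hJ i hi j hj) hB0
    refine h1.trans ?_
    rw [mul_div_assoc', div_le_iff₀ (by positivity)]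
    nlinarith
  obtain ⟨f, hf⟩ := hL2LIM T hT s (fun j => (hs j).1.continuousOn) hcauC
  have hsm : ∀ C ⊆ T, IsCompact C → ∀ j, MemLp (s j) 2 (volume.restrict C) :=
    fun C hCT hC j => memLp_on hC ((hs j).1.continuousOn.mono hCT)
  -- the weak equation for the limit
  have hweakf : ∀ ζ : Cn n → ℂ, ContDiff ℝ ∞ ζ → HasCompactSupport ζ → tsupport ζ ⊆ T →
      ∫ x in T, f x * ∑ k, ∑ j, cdb k (fun y => ((W y : ℂ) • (H y)⁻¹) k j * cd j ζ y) x = 0 := by
    intro ζ hζ1 hζ2 hζ3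
    have hζ : TC T ζ := ⟨hζ1, hζ2, hζ3⟩
    have hA : ∀ k j, ContDiffOn ℝ ∞ (fun y => ((W y : ℂ) • (H y)⁻¹) k j) T := fun k j =>
      (Complex.ofRealCLM.contDiff.comp_contDiffOn hWt.smooth).mul (hHs k j)
    have hφ : ∀ k j, TC T (fun y => ((W y : ℂ) • (H y)⁻¹) k j * cd j ζ y) := fun k j =>
      tc_mul hT (tc_cd hζ j).1 (hA k j)
    set Q : Cn n → ℂ := fun x => ∑ k, ∑ j,
      cdb k (fun y => ((W y : ℂ) • (H y)⁻¹) k j * cd j ζ y) x with hQ
    have hQc : Continuous Q := continuous_finsetSum _ fun k _ => continuous_finsetSum _ fun j _ =>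
      (tc_cd (hφ k j) k).2.smooth.continuous
    have hQ0 : ∀ x ∉ tsupport ζ, Q x = 0 := by
      intro x hx
      refine Finset.sum_eq_zero fun k _ => Finset.sum_eq_zero fun j _ => ?_
      refine (cd_off (φ := fun y => ((W y : ℂ) • (H y)⁻¹) k j * cd j ζ y) ?_ k).2
      intro h
      apply hx
      refine closure_minimal ?_ (isClosed_tsupport ζ) h
      intro y hy
      by_contra h'
      apply hy
      show ((W y : ℂ) • (H y)⁻¹) k j * cd j ζ y = 0
      rw [(cd_off h' j).1, mul_zero]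
    have hC : IsCompact (tsupport ζ) := hζ2.isCompact
    obtain ⟨hAη, -, -⟩ := hAUT T R H hK κ hκ m W hWt (tsupport ζ) hζ3 hC
    obtain ⟨hSη, hdη⟩ := hAη (fun y => conj (ζ y))
      (Complex.conjCLE.contDiff.comp hζ1) (fun x hx => by
        show conj (ζ x) = 0
        rw [image_eq_zero_of_notMem_tsupport hx, map_zero])
    have hlim := hweak _ hSη
    have e : ∀ j, ipE T κ W (s j) (boxO H W (aut R m fun y => conj (ζ y))) =
        - ∫ x in T, s j x * Q x := by
      intro j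
      rw [(hBOX T R H hK κ hκ m W hWt (s j) _ (hs j) hSη).2.2, (hdη (s j) (hs j)).2]
      exact weak_eq hWIRT hT hWt.smooth hHs (hs j).1 hζ
    simp only [e] at hlim
    have hTC : ∀ q : Cn n → ℂ, ∫ x in T, q x * Q x = ∫ x in tsupport ζ, q x * Q x := by
      intro q
      refine setIntegral_eq_of_subset_of_forall_sdiff_eq_zero hT.measurableSet hζ3 fun x hx => ?_
      rw [hQ0 x hx.2, mul_zero]
    have hQL : MemLp Q 2 (volume.restrict (tsupport ζ)) := memLp_on hC hQc.continuousOn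
    have h1 := tendsto_mul_int (μ := volume.restrict (tsupport ζ))
      (a := fun j x => s j x - f x) (b := Q)
      (fun j => (hsm _ hζ3 hC j).sub (hf _ hζ3 hC).1) hQL (hf _ hζ3 hC).2
    have hi1 : ∀ q : Cn n → ℂ, MemLp q 2 (volume.restrict (tsupport ζ)) →
        Integrable (fun x => q x * Q x) (volume.restrict (tsupport ζ)) := fun q hq =>
      hq.integrable_mul hQL
    have h2 : ∀ j, ∫ x in tsupport ζ, (s j x - f x) * Q x =
        (∫ x in T, s j x * Q x) - ∫ x in T, f x * Q x := by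
      intro j
      rw [hTC, hTC, ← integral_sub (hi1 _ (hsm _ hζ3 hC j)) (hi1 _ (hf _ hζ3 hC).1)]
      refine integral_congr_ae (Eventually.of_forall fun x => ?_)
      exact sub_mul _ _ _
    simp only [h2] at h1
    have h3 : Tendsto (fun j => ∫ x in T, s j x * Q x) atTop (𝓝 (∫ x in T, f x * Q x)) := by
      have := h1.add_const (∫ x in T, f x * Q x)
      simpa using this
    have h4 := tendsto_nhds_unique h3.neg hlim
    exact neg_eq_zero.1 h4
  -- smooth approximations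
  obtain ⟨F, hF1, hF2, hF3⟩ := hREGL T (fun y => (W y : ℂ) • (H y)⁻¹) hT
    (fun j k => (Complex.ofRealCLM.contDiff.comp_contDiffOn hWt.smooth).mul (hHs j k))
    (fun x hx => (hposI x hx).smul (by exact_mod_cast hW x hx)) f
    (fun C hCT hC => (hf C hCT hC).1) hweakf (tsupport κ) hC0T hC0
  have hk := kap_tc hκ
  have hη : ∀ j, ContDiff ℝ ∞ (fun y => (κ y : ℂ) * F j y) := fun j => hk.smooth.mul (hF1 j)
  have hη0 : ∀ j, ∀ x ∉ tsupport κ, (κ x : ℂ) * F j x = 0 := fun j x hx => by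
    rw [kap_off hx]
    simp
  obtain ⟨hA1, hA2, B1, hA3⟩ := hAUT T R H hK κ hκ m W hWt (tsupport κ) hC0T hC0
  have hSec : ∀ j, Sec T R m (aut R m fun y => (κ y : ℂ) * F j y) := fun j =>
    (hA1 _ (hη j) (hη0 j)).1
  set h : ℕ → Cn n → ℂ := fun j => aut R m fun y => (κ y : ℂ) * F j y with hh
  have hFm : ∀ j, MemLp (F j) 2 (volume.restrict (tsupport κ)) := fun j =>
    memLp_on hC0 (hF1 j).continuous.continuousOn
  have hfm := (hf _ hC0T hC0).1
  have hB1 : 0 ≤ max B1 0 := le_max_right _ _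
  -- the difference of h and s
  have hE1 : Tendsto (fun j => nsE T κ W (fun x => h j x - s j x)) atTop (𝓝 0) := by
    have h1 : ∀ j, nsE T κ W (fun x => h j x - s j x) ≤ max B1 0 * (K ^ 2 *
        (2 * (∫ x in tsupport κ, ‖F j x - f x‖ ^ 2) +
          2 * (∫ x in tsupport κ, ‖s j x - f x‖ ^ 2))) := by
      intro j
      have hks : TC T (fun y => (κ y : ℂ) * s j y) := by
        have := tc_mul hT hk (hs j).1
        refine ⟨?_, ?_, ?_⟩
        · simpa [mul_comm] using this.smooth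
        · simpa [mul_comm] using this.cpt
        · simpa [mul_comm] using this.sub
      have hks0 : ∀ x ∉ tsupport κ, (κ x : ℂ) * s j x = 0 := fun x hx => by
        rw [kap_off hx]
        simp
      have e1 : nsE T κ W (fun x => h j x - s j x) =
          nsE T κ W (aut R m fun y => (κ y : ℂ) * F j y - (κ y : ℂ) * s j y) := by
        refine setIntegral_congr_fun hT.measurableSet fun x hx => ?_
        show κ x * W x * ‖h j x - s j x‖ ^ 2 = _
        rw [aut_sub hLFIN hK.et hC0T hC0 (hη0 j) hks0 hx, hA2 (s j) (hs j) x hx]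
      have e2 := (hA3 (fun y => (κ y : ℂ) * F j y - (κ y : ℂ) * s j y)
        ((hη j).sub hks.smooth) (fun x hx => by rw [hη0 j x hx, hks0 x hx, sub_zero])).1
      have e3 : ∫ x in tsupport κ, ‖(κ x : ℂ) * F j x - (κ x : ℂ) * s j x‖ ^ 2 ≤
          K ^ 2 * ∫ x in tsupport κ, ‖F j x - s j x‖ ^ 2 := by
        rw [← integral_const_mul]
        refine integral_mono (memLp_sq ((memLp_on hC0 (hη j).continuous.continuousOn).sub
          (memLp_on hC0 hks.smooth.continuous.continuousOn)))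
          ((memLp_sq ((hFm j).sub (hsm _ hC0T hC0 j))).const_mul _) fun x => ?_
        show ‖(κ x : ℂ) * F j x - (κ x : ℂ) * s j x‖ ^ 2 ≤ K ^ 2 * ‖F j x - s j x‖ ^ 2
        rw [← mul_sub, norm_mul, mul_pow, Complex.norm_real, Real.norm_eq_abs]
        exact mul_le_mul_of_nonneg_right (pow_le_pow_left₀ (abs_nonneg _) (hK1 x) 2)
          (by positivity)
      have e4 : ∫ x in tsupport κ, ‖F j x - s j x‖ ^ 2 ≤
          2 * (∫ x in tsupport κ, ‖F j x - f x‖ ^ 2) +
          2 * (∫ x in tsupport κ, ‖s j x - f x‖ ^ 2) := by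
        have := two_sq (μ := volume.restrict (tsupport κ)) ((hFm j).sub hfm)
          ((hsm _ hC0T hC0 j).sub hfm)
        refine le_trans (le_of_eq ?_) this
        refine integral_congr_ae (Eventually.of_forall fun x => ?_)
        show ‖F j x - s j x‖ ^ 2 = ‖(F j x - f x) - (s j x - f x)‖ ^ 2
        rw [sub_sub_sub_cancel_right]
      rw [e1]
      refine e2.trans ?_
      have e5 : 0 ≤ ∫ x in tsupport κ, ‖(κ x : ℂ) * F j x - (κ x : ℂ) * s j x‖ ^ 2 :=
        integral_nonneg fun x => by positivity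
      refine (mul_le_mul_of_nonneg_right (le_max_left B1 0) e5).trans ?_
      refine mul_le_mul_of_nonneg_left (e3.trans ?_) hB1
      exact mul_le_mul_of_nonneg_left e4 (by positivity)
    refine squeeze_zero (fun j => ns_nonneg hT hκ hW _) h1 ?_
    have h2 := (((hF2.const_mul 2).add ((hf _ hC0T hC0).2.const_mul 2)).const_mul
      (K ^ 2)).const_mul (max B1 0)
    simpa using h2
  have hhm : ∀ C ⊆ T, IsCompact C → ∀ j, MemLp (h j) 2 (volume.restrict C) :=
    fun C hCT hC j => memLp_on hC ((hSec j).1.continuousOn.mono hCT)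
  have hE2 : ∀ C ⊆ T, IsCompact C →
      Tendsto (fun j => ∫ x in C, ‖h j x - s j x‖ ^ 2) atTop (𝓝 0) := by
    intro C hCT hC
    obtain ⟨B, -, hB⟩ := hL C hCT hC
    refine squeeze_zero (fun j => integral_nonneg fun x => by positivity)
      (fun j => (hB _ (sec_sub (hSec j) (hs j))).1) ?_
    have := hE1.const_mul B
    simpa using this
  have hE3 : ∀ C ⊆ T, IsCompact C →
      Tendsto (fun j => ∫ x in C, ‖h j x - f x‖ ^ 2) atTop (𝓝 0) := by
    intro C hCT hC
    have h1 : ∀ j, ∫ x in C, ‖h j x - f x‖ ^ 2 ≤ 2 * (∫ x in C, ‖h j x - s j x‖ ^ 2) +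
        2 * (∫ x in C, ‖s j x - f x‖ ^ 2) := by
      intro j
      have := two_sq (μ := volume.restrict C) ((hhm C hCT hC j).sub (hsm C hCT hC j))
          ((hf C hCT hC).1.sub (hsm C hCT hC j))
      have e1 : ∫ x in C, ‖s j x - f x‖ ^ 2 = ∫ x in C, ‖(f - s j) x‖ ^ 2 := by
        refine integral_congr_ae (Eventually.of_forall fun x => ?_)
        show ‖s j x - f x‖ ^ 2 = ‖f x - s j x‖ ^ 2
        rw [norm_sub_rev]
      rw [e1]
      refine le_trans (le_of_eq ?_) this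
      refine integral_congr_ae (Eventually.of_forall fun x => ?_)
      show ‖h j x - f x‖ ^ 2 = ‖(h j x - s j x) - (f x - s j x)‖ ^ 2
      rw [sub_sub_sub_cancel_right]
    refine squeeze_zero (fun j => integral_nonneg fun x => by positivity) h1 ?_
    have h2 := ((hE2 C hCT hC).const_mul 2).add ((hf C hCT hC).2.const_mul 2)
    simpa using h2
  -- the forms of h are Cauchy
  have hE4 : ∀ ε > 0, ∃ J, ∀ i ≥ J, ∀ j ≥ J,
      (dipE T κ W H (fun x => h i x - h j x) fun x => h i x - h j x).re ≤ ε := by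
    have h1 : ∀ i j, (dipE T κ W H (fun x => h i x - h j x) fun x => h i x - h j x).re ≤
        max B1 0 * (2 * K ^ 2 * (∫ x in tsupport κ, ∑ l, ‖cdb l (F i) x - cdb l (F j) x‖ ^ 2) +
          2 * K ^ 2 * n * (∫ x in tsupport κ, ‖F i x - F j x‖ ^ 2)) := by
      intro i j
      have hηs : ContDiff ℝ ∞ (fun y => (κ y : ℂ) * F i y - (κ y : ℂ) * F j y) :=
        (hη i).sub (hη j)
      have e1 : dipE T κ W H (fun x => h i x - h j x) (fun x => h i x - h j x) =
          dipE T κ W H (aut R m fun y => (κ y : ℂ) * F i y - (κ y : ℂ) * F j y)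
            (aut R m fun y => (κ y : ℂ) * F i y - (κ y : ℂ) * F j y) := by
        refine setIntegral_congr_fun hT.measurableSet fun x hx => ?_
        have h2 : ∀ l, cdb l (fun x => h i x - h j x) x =
            cdb l (aut R m fun y => (κ y : ℂ) * F i y - (κ y : ℂ) * F j y) x := fun l =>
          cdb_congr hT (fun y hy =>
            (aut_sub hLFIN hK.et hC0T hC0 (hη0 i) (hη0 j) hy).symm) hx l
        show ((κ x * W x : ℝ) : ℂ) * dbp H (fun x => h i x - h j x) (fun x => h i x - h j x) x = _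
        unfold dbp
        simp only [h2]
      have e2 := (hA3 (fun y => (κ y : ℂ) * F i y - (κ y : ℂ) * F j y) hηs
        (fun x hx => by rw [hη0 i x hx, hη0 j x hx, sub_zero])).2
      have hc1 : Continuous fun x => ∑ l,
          ‖cdb l (fun y => (κ y : ℂ) * F i y - (κ y : ℂ) * F j y) x‖ ^ 2 :=
        continuous_finsetSum _ fun l _ => ((contDiff_cd hηs l).2.continuous.norm.pow 2)
      have hc2 : Continuous fun x => ∑ l, ‖cdb l (F i) x - cdb l (F j) x‖ ^ 2 :=
        continuous_finsetSum _ fun l _ => (((contDiff_cd (hF1 i) l).2.continuous.sub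
          (contDiff_cd (hF1 j) l).2.continuous).norm.pow 2)
      have hc3 : Continuous fun x => ‖F i x - F j x‖ ^ 2 :=
        ((hF1 i).continuous.sub (hF1 j).continuous).norm.pow 2
      have hi2 := hc2.continuousOn.integrableOn_compact (μ := volume) hC0
      have hi3 := hc3.continuousOn.integrableOn_compact (μ := volume) hC0
      have e3 : ∫ x in tsupport κ, ∑ l,
            ‖cdb l (fun y => (κ y : ℂ) * F i y - (κ y : ℂ) * F j y) x‖ ^ 2 ≤
          2 * K ^ 2 * (∫ x in tsupport κ, ∑ l, ‖cdb l (F i) x - cdb l (F j) x‖ ^ 2) +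
          2 * K ^ 2 * n * (∫ x in tsupport κ, ‖F i x - F j x‖ ^ 2) := by
        rw [← integral_const_mul, ← integral_const_mul,
          ← integral_add (hi2.const_mul _) (hi3.const_mul _)]
        exact integral_mono (hc1.continuousOn.integrableOn_compact hC0)
          ((hi2.const_mul _).add (hi3.const_mul _))
          fun x => cdb_bound hκ hK1 hK2 (hF1 i) (hF1 j) x
      rw [e1]
      refine e2.trans ?_
      have e5 : 0 ≤ ∫ x in tsupport κ, ∑ l,
            ‖cdb l (fun y => (κ y : ℂ) * F i y - (κ y : ℂ) * F j y) x‖ ^ 2 :=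
        integral_nonneg fun x => Finset.sum_nonneg fun l _ => by positivity
      refine (mul_le_mul_of_nonneg_right (le_max_left B1 0) e5).trans ?_
      exact mul_le_mul_of_nonneg_left e3 hB1
    intro ε hε
    set M : ℝ := max B1 0 * (2 * K ^ 2 + 2 * K ^ 2 * n) + 1 with hM
    have hM0 : 0 < M := by positivity
    have hδ : 0 < ε / M := by positivity
    obtain ⟨J1, hJ1⟩ := hF3 (ε / M) hδ
    obtain ⟨J2, hJ2⟩ := eventually_atTop.1
      (hF2.eventually (ge_mem_nhds (show (0 : ℝ) < ε / M / 4 by positivity)))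
    refine ⟨max J1 J2, fun i hi j hj => (h1 i j).trans ?_⟩
    have a1 := hJ1 i (le_trans (le_max_left _ _) hi) j (le_trans (le_max_left _ _) hj)
    have a2 := hJ2 i (le_trans (le_max_right _ _) hi)
    have a3 := hJ2 j (le_trans (le_max_right _ _) hj)
    have a4 : ∫ x in tsupport κ, ‖F i x - F j x‖ ^ 2 ≤ ε / M := by
      have := two_sq (μ := volume.restrict (tsupport κ)) ((hFm i).sub hfm) ((hFm j).sub hfm)
      have e6 : ∫ x in tsupport κ, ‖F i x - F j x‖ ^ 2 =
          ∫ x in tsupport κ, ‖(F i - f) x - (F j - f) x‖ ^ 2 := by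
        refine integral_congr_ae (Eventually.of_forall fun x => ?_)
        show ‖F i x - F j x‖ ^ 2 = ‖(F i x - f x) - (F j x - f x)‖ ^ 2
        rw [sub_sub_sub_cancel_right]
      rw [e6]
      refine this.trans ?_
      have b1 : ∫ x in tsupport κ, ‖(F i - f) x‖ ^ 2 ≤ ε / M / 4 := a2
      have b2 : ∫ x in tsupport κ, ‖(F j - f) x‖ ^ 2 ≤ ε / M / 4 := a3
      linarith
    have a5 : 2 * K ^ 2 * (∫ x in tsupport κ, ∑ l, ‖cdb l (F i) x - cdb l (F j) x‖ ^ 2) +
          2 * K ^ 2 * n * (∫ x in tsupport κ, ‖F i x - F j x‖ ^ 2) ≤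
        2 * K ^ 2 * (ε / M) + 2 * K ^ 2 * n * (ε / M) :=
      add_le_add (mul_le_mul_of_nonneg_left a1 (by positivity))
        (mul_le_mul_of_nonneg_left a4 (by positivity))
    refine (mul_le_mul_of_nonneg_left a5 hB1).trans ?_
    have a6 : max B1 0 * (2 * K ^ 2 * (ε / M) + 2 * K ^ 2 * n * (ε / M)) =
        (M - 1) * (ε / M) := by
      rw [hM]
      ring
    rw [a6]
    have a7 : M * (ε / M) = ε := mul_div_cancel₀ ε hM0.ne'
    nlinarith
  -- weak convergence
  have hE5 : ∀ i, Tendsto (fun j => (dipE T κ W H (h j) (h i)).re) atTop (𝓝 0) := by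
    intro i
    have hbox := (hBOX T R H hK κ hκ m W hWt (h i) (h i) (hSec i) (hSec i)).1
    have hbc := hbox.1.continuousOn
    have hb : MemLp (fun x => ((κ x * W x : ℝ) : ℂ) * conj (boxO H W (h i) x)) 2
        (volume.restrict (tsupport κ)) := by
      refine memLp_on hC0 (ContinuousOn.mono ?_ hC0T)
      exact (Complex.continuous_ofReal.comp_continuousOn
        (hκ.test.1.continuous.continuousOn.mul hW')).mul
        (Complex.continuous_conj.comp_continuousOn hbc)
    have h1 := tendsto_mul_int (μ := volume.restrict (tsupport κ))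
      (a := fun j x => h j x - s j x)
      (b := fun x => ((κ x * W x : ℝ) : ℂ) * conj (boxO H W (h i) x))
      (fun j => (hhm _ hC0T hC0 j).sub (hsm _ hC0T hC0 j)) hb (hE2 _ hC0T hC0)
    have h2 : ∀ j, dipE T κ W H (h j) (h i) = ipE T κ W (s j) (boxO H W (h i)) +
        ∫ x in tsupport κ, (h j x - s j x) *
          (((κ x * W x : ℝ) : ℂ) * conj (boxO H W (h i) x)) := by
      intro j
      have i1 : Integrable (fun x => s j x *
          (((κ x * W x : ℝ) : ℂ) * conj (boxO H W (h i) x))) (volume.restrict (tsupport κ)) :=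
        (hsm _ hC0T hC0 j).integrable_mul hb
      have i2 : Integrable (fun x => (h j x - s j x) *
          (((κ x * W x : ℝ) : ℂ) * conj (boxO H W (h i) x))) (volume.restrict (tsupport κ)) :=
        ((hhm _ hC0T hC0 j).sub (hsm _ hC0T hC0 j)).integrable_mul hb
      rw [← (hBOX T R H hK κ hκ m W hWt (h j) (h i) (hSec j) (hSec i)).2.2,
        (ip_int hT hκ hW' (hSec j).1.continuousOn hbc).2,
        (ip_int hT hκ hW' (hs j).1.continuousOn hbc).2, ← integral_add i1 i2]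
      refine integral_congr_ae (Eventually.of_forall fun x => ?_)
      show h j x * (((κ x * W x : ℝ) : ℂ) * conj (boxO H W (h i) x)) =
        s j x * (((κ x * W x : ℝ) : ℂ) * conj (boxO H W (h i) x)) +
        (h j x - s j x) * (((κ x * W x : ℝ) : ℂ) * conj (boxO H W (h i) x))
      ring
    have h3 : Tendsto (fun j => dipE T κ W H (h j) (h i)) atTop (𝓝 0) := by
      simp only [h2]
      have := (hweak _ (hSec i)).add h1
      simpa using this
    have h4 : Tendsto (fun j => (dipE T κ W H (h j) (h i)).re) atTop (𝓝 (0 : ℂ).re) :=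
      (Complex.continuous_re.tendsto 0).comp h3
    rwa [Complex.zero_re] at h4
  have hE6 : Tendsto (fun j => (dipE T κ W H (h j) (h j)).re) atTop (𝓝 0) := by
    rw [Metric.tendsto_atTop]
    intro ε hε
    obtain ⟨J, hJ⟩ := hE4 (ε / 4) (by positivity)
    obtain ⟨J', hJ'⟩ := eventually_atTop.1
      ((hE5 J).eventually (ge_mem_nhds (show (0 : ℝ) < ε / 4 by positivity)))
    refine ⟨max J J', fun j hj => ?_⟩
    have a1 := hJ j (le_trans (le_max_left _ _) hj) J le_rfl
    have a2 := hJ' j (le_trans (le_max_right _ _) hj)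
    have a3 := dip_ineq hT hκ hW hW' hHs hposI (hSec j).1 (hSec J).1
    have a4 := dip_nonneg hT hκ hW hW' hHs hposI (hSec j).1
    rw [Real.dist_eq, sub_zero, abs_of_nonneg a4]
    linarith
  obtain ⟨g, hg1, hg2⟩ := hHOLL T hT h f (fun j => (hSec j).1) (fun C hCT hC => by
    refine ⟨(hf C hCT hC).1, hE3 C hCT hC, ?_⟩
    obtain ⟨B, -, hB⟩ := hL C hCT hC
    refine squeeze_zero (fun j => integral_nonneg fun x => by positivity)
      (fun j => (hB _ (hSec j)).2) ?_
    have := hE6.const_mul B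
    simpa using this)
  have hgC : ∀ C ⊆ T, IsCompact C →
      Tendsto (fun j => ∫ x in C, ‖s j x - g x‖ ^ 2) atTop (𝓝 0) := by
    intro C hCT hC
    refine (hf C hCT hC).2.congr fun j => ?_
    refine integral_congr_ae ?_
    have h1 := ae_restrict_of_ae_restrict_of_subset hCT hg2
    filter_upwards [h1] with x hx
    rw [hx]
  refine ⟨g, sec_lim hARRB hK.et hs hg1 hgC, hg1, ?_⟩
  obtain ⟨B, -, hB⟩ := ns_le hT hκ hW'
  refine squeeze_zero (fun j => ns_nonneg hT hκ hW _)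
    (fun j => hB _ ((hs j).1.continuousOn.sub hg1.continuousOn)) ?_
  have := (hgC _ hC0T hC0).const_mul B
  simpa using this

end Pool.Agent.Helper67.SP
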