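import Pool.Agent.Helper10.SP.GoalsT
import Pool.Agent.Helper95.Lin.Basics

/-! # Preparations for REG -/

open Complex Metric Set Filter Topology MeasureTheory
open scoped ContDiff ComplexConjugate ComplexOrder

namespace Pool.Agent.Helper67.SP

open Pool.Agent.Helper95.Lin Pool.Agent.Helper10.SP

variable {n : ℕ} {T : Set (Cn n)}

/-! ## Complex test functions -/

/-- `φ` is a complex test function on `T`. -/
structure TC (T : Set (Cn n)) (φ : Cn n → ℂ) : Prop where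
  smooth : ContDiff ℝ ∞ φ
  cpt : HasCompactSupport φ
  sub : tsupport φ ⊆ T

theorem tc_of_subset (hT : IsOpen T) {φ ψ : Cn n → ℂ} (hφ : TC T φ)
    (hψ : ContDiffOn ℝ ∞ ψ T) (h : ∀ x, φ x = 0 → ψ x = 0) : TC T ψ := by
  have hsub : tsupport ψ ⊆ tsupport φ := by
    apply closure_mono
    intro x hx
    rw [Function.mem_support] at hx ⊢
    exact fun h' => hx (h x h')
  refine ⟨?_, ?_, hsub.trans hφ.sub⟩
  · rw [contDiff_iff_contDiffAt]
    intro x
    by_cases hx : x ∈ T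
    · exact hψ.contDiffAt (hT.mem_nhds hx)
    · have hx' : x ∉ tsupport φ := fun h => hx (hφ.sub h)
      have h0 : ψ =ᶠ[𝓝 x] fun _ => 0 := by
        have := notMem_tsupport_iff_eventuallyEq.1 hx'
        filter_upwards [this] with y hy
        exact h y hy
      exact contDiffAt_const.congr_of_eventuallyEq h0
  · exact HasCompactSupport.of_support_subset_isCompact hφ.cpt ((subset_tsupport _).trans hsub)

theorem tc_mul (hT : IsOpen T) {φ w : Cn n → ℂ} (hφ : TC T φ) (hw : ContDiffOn ℝ ∞ w T) :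
    TC T (fun x => w x * φ x) :=
  tc_of_subset hT hφ (hw.mul hφ.smooth.contDiffOn) fun x hx => by rw [hx, mul_zero]

theorem contDiff_cd {φ : Cn n → ℂ} (hφ : ContDiff ℝ ∞ φ) (l : Fin n) :
    ContDiff ℝ ∞ (cd l φ) ∧ ContDiff ℝ ∞ (cdb l φ) := by
  have h := hφ.fderiv_right (m := ∞) (by simp)
  have h1 : ∀ v : Cn n, ContDiff ℝ ∞ (fun x => fderiv ℝ φ x v) := fun v =>
    h.clm_apply contDiff_const
  exact ⟨(h1 _).sub (contDiff_const.mul (h1 _)), (h1 _).add (contDiff_const.mul (h1 _))⟩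

theorem contDiffOn_cd (hT : IsOpen T) {φ : Cn n → ℂ} (hφ : ContDiffOn ℝ ∞ φ T) (l : Fin n) :
    ContDiffOn ℝ ∞ (cd l φ) T ∧ ContDiffOn ℝ ∞ (cdb l φ) T := by
  have h := hφ.fderiv_of_isOpen (m := ∞) hT (by simp)
  have h1 : ∀ v : Cn n, ContDiffOn ℝ ∞ (fun x => fderiv ℝ φ x v) T := fun v =>
    h.clm_apply contDiffOn_const
  exact ⟨(h1 _).sub (contDiffOn_const.mul (h1 _)), (h1 _).add (contDiffOn_const.mul (h1 _))⟩

theorem cd_off {φ : Cn n → ℂ} {x : Cn n} (hx : x ∉ tsupport φ) (l : Fin n) :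
    cd l φ x = 0 ∧ cdb l φ x = 0 := by
  have h : fderiv ℝ φ x = 0 := by
    have h0 := notMem_tsupport_iff_eventuallyEq.1 hx
    rw [h0.fderiv_eq]
    exact fderiv_const_apply 0
  constructor
  · unfold cd
    rw [h]
    simp
  · unfold cdb
    rw [h]
    simp

theorem tc_cd {φ : Cn n → ℂ} (hφ : TC T φ) (l : Fin n) : TC T (cd l φ) ∧ TC T (cdb l φ) := by
  have h1 : tsupport (cd l φ) ⊆ tsupport φ := by
    refine closure_minimal ?_ (isClosed_tsupport φ)
    intro x hx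
    by_contra h
    exact hx (cd_off h l).1
  have h2 : tsupport (cdb l φ) ⊆ tsupport φ := by
    refine closure_minimal ?_ (isClosed_tsupport φ)
    intro x hx
    by_contra h
    exact hx (cd_off h l).2
  exact ⟨⟨(contDiff_cd hφ.smooth l).1, HasCompactSupport.of_support_subset_isCompact hφ.cpt
    ((subset_tsupport _).trans h1), h1.trans hφ.sub⟩,
    ⟨(contDiff_cd hφ.smooth l).2, HasCompactSupport.of_support_subset_isCompact hφ.cpt
    ((subset_tsupport _).trans h2), h2.trans hφ.sub⟩⟩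

theorem tc_integrable {φ : Cn n → ℂ} (hφ : TC T φ) : Integrable φ :=
  hφ.smooth.continuous.integrable_of_hasCompactSupport hφ.cpt

theorem tc_setIntegral {φ : Cn n → ℂ} (hφ : TC T φ) : ∫ x in T, φ x = ∫ x, φ x := by
  apply setIntegral_eq_integral_of_forall_compl_eq_zero
  intro x hx
  exact image_eq_zero_of_notMem_tsupport fun h => hx (hφ.sub h)

theorem integral_fderiv_tc {φ : Cn n → ℂ} (hφ : TC T φ) (v : Cn n) :
    Integrable (fun x => fderiv ℝ φ x v) ∧ ∫ x, fderiv ℝ φ x v = 0 := by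
  have hc : Continuous (fun x => fderiv ℝ φ x v) :=
    ((hφ.smooth.fderiv_right (m := ∞) (by simp)).clm_apply contDiff_const).continuous
  have hs : HasCompactSupport (fun x => fderiv ℝ φ x v) := by
    refine HasCompactSupport.of_support_subset_isCompact hφ.cpt ?_
    intro x hx
    by_contra h
    apply hx
    have h0 := notMem_tsupport_iff_eventuallyEq.1 h
    show fderiv ℝ φ x v = 0
    rw [h0.fderiv_eq]
    have : fderiv ℝ (0 : Cn n → ℂ) x = 0 := fderiv_const_apply 0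
    rw [this]
    rfl
  have hi : Integrable (fun x => fderiv ℝ φ x v) := hc.integrable_of_hasCompactSupport hs
  refine ⟨hi, ?_⟩
  have h := integral_mul_fderiv_eq_neg_fderiv_mul_of_integrable (μ := (volume : Measure (Cn n)))
    (f := fun _ => (1 : ℂ)) (g := φ) (v := v) (by simp)
    (by simpa using hi) (by simpa using tc_integrable hφ)
    (fun x _ => differentiableAt_const _) (fun x _ => hφ.smooth.differentiable (by simp) x)
  simpa using h

theorem integral_cdb_tc {φ : Cn n → ℂ} (hφ : TC T φ) (l : Fin n) : ∫ x, cdb l φ x = 0 := by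
  unfold cdb
  obtain ⟨h1, h2⟩ := integral_fderiv_tc hφ (Pi.single l 1)
  obtain ⟨h3, h4⟩ := integral_fderiv_tc hφ (Pi.single l I)
  rw [integral_add h1 (h3.const_mul I), integral_const_mul, h2, h4]
  simp

theorem cdb_mul {f g : Cn n → ℂ} {x : Cn n} (hf : DifferentiableAt ℝ f x)
    (hg : DifferentiableAt ℝ g x) (l : Fin n) :
    cdb l (fun y => f y * g y) x = f x * cdb l g x + g x * cdb l f x := by
  unfold cdb
  have := fderiv_mul hf hg
  rw [show (fun y => f y * g y) = f * g from rfl, this]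
  simp
  ring

theorem cdb_sub {f g : Cn n → ℂ} {x : Cn n} (hf : DifferentiableAt ℝ f x)
    (hg : DifferentiableAt ℝ g x) (l : Fin n) :
    cdb l (fun y => f y - g y) x = cdb l f x - cdb l g x := by
  unfold cdb
  have := fderiv_sub hf hg
  rw [show (fun y => f y - g y) = f - g from rfl, this]
  simp
  ring

theorem cdb_congr {f g : Cn n → ℂ} (hT : IsOpen T) (h : ∀ x ∈ T, f x = g x) {x : Cn n}
    (hx : x ∈ T) (l : Fin n) : cdb l f x = cdb l g x := by
  have h1 : f =ᶠ[𝓝 x] g := by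
    filter_upwards [hT.mem_nhds hx] with y hy
    exact h y hy
  unfold cdb
  rw [h1.fderiv_eq]

/-- Integration by parts. -/
theorem ibp (hT : IsOpen T) {s φ : Cn n → ℂ} (hs : ContDiffOn ℝ ∞ s T) (hφ : TC T φ)
    (l : Fin n) : ∫ x in T, φ x * cdb l s x = - ∫ x in T, s x * cdb l φ x := by
  have h1 := tc_mul hT hφ hs
  have h2 := integral_cdb_tc h1 l
  have h3 : ∀ x ∈ T, cdb l (fun y => s y * φ y) x = s x * cdb l φ x + φ x * cdb l s x :=
    fun x hx => cdb_mul ((hs.contDiffAt (hT.mem_nhds hx)).differentiableAt (by simp))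
      (hφ.smooth.differentiable (by simp) x) l
  have h4 : TC T (fun x => s x * cdb l φ x) := tc_mul hT (tc_cd hφ l).2 hs
  have h5 : TC T (fun x => cdb l s x * φ x) := tc_mul hT hφ (contDiffOn_cd hT hs l).2
  rw [← tc_setIntegral (tc_cd h1 l).2, setIntegral_congr_fun hT.measurableSet h3,
    integral_add (tc_integrable h4).integrableOn] at h2
  · exact eq_neg_of_add_eq_zero_right h2
  · have := (tc_integrable h5).integrableOn (s := T)
    refine this.congr (Eventually.of_forall fun x => ?_)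
    exact mul_comm _ _

/-! ## Integrals over compact sets -/

/-- Integrals of functions with compact support in `T`. -/
theorem int_on {C : Set (Cn n)} (hT : IsOpen T) (hC : IsCompact C) (hCT : C ⊆ T)
    {E : Type*} [NormedAddCommGroup E] [NormedSpace ℝ E]
    {q : Cn n → E} (hq : ContinuousOn q T) (h0 : ∀ x ∉ C, q x = 0) :
    IntegrableOn q C ∧ IntegrableOn q T ∧ ∫ x in T, q x = ∫ x in C, q x := by
  have h1 : IntegrableOn q C := (hq.mono hCT).integrableOn_compact hC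
  refine ⟨h1, ?_, ?_⟩
  · exact h1.of_forall_sdiff_eq_zero hT.measurableSet fun x hx => h0 x hx.2
  · exact setIntegral_eq_of_subset_of_forall_sdiff_eq_zero hT.measurableSet hCT
      fun x hx => h0 x hx.2

theorem memLp_on {C : Set (Cn n)} (hC : IsCompact C) {q : Cn n → ℂ} (hq : ContinuousOn q C) :
    MemLp q 2 (volume.restrict C) := by
  have : IsFiniteMeasure (volume.restrict C) := ⟨by
    rw [Measure.restrict_apply_univ]
    exact hC.measure_lt_top⟩
  obtain ⟨K, hK⟩ := hC.exists_bound_of_continuousOn hq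
  refine MemLp.of_bound (hq.aestronglyMeasurable hC.isClosed.measurableSet) K ?_
  exact (ae_restrict_iff' hC.isClosed.measurableSet).2 (Eventually.of_forall hK)

theorem memLp_sq {μ : Measure (Cn n)} {a : Cn n → ℂ} (ha : MemLp a 2 μ) :
    Integrable (fun x => ‖a x‖ ^ 2) μ := ha.integrable_norm_pow (by norm_num)

theorem two_sq {μ : Measure (Cn n)} {a b : Cn n → ℂ} (ha : MemLp a 2 μ) (hb : MemLp b 2 μ) :
    ∫ x, ‖a x - b x‖ ^ 2 ∂μ ≤ 2 * ∫ x, ‖a x‖ ^ 2 ∂μ + 2 * ∫ x, ‖b x‖ ^ 2 ∂μ := by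
  rw [← integral_const_mul, ← integral_const_mul,
    ← integral_add ((memLp_sq ha).const_mul 2) ((memLp_sq hb).const_mul 2)]
  refine integral_mono (memLp_sq (ha.sub hb)) (((memLp_sq ha).const_mul 2).add
    ((memLp_sq hb).const_mul 2)) fun x => ?_
  show ‖a x - b x‖ ^ 2 ≤ 2 * ‖a x‖ ^ 2 + 2 * ‖b x‖ ^ 2
  have h1 := norm_sub_le (a x) (b x)
  have h2 := norm_nonneg (a x - b x)
  nlinarith [sq_nonneg (‖a x‖ - ‖b x‖), norm_nonneg (a x), norm_nonneg (b x)]

theorem cs_le {μ : Measure (Cn n)} {a b : Cn n → ℂ} (ha : MemLp a 2 μ) (hb : MemLp b 2 μ) :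
    ‖∫ x, a x * b x ∂μ‖ ≤ (∫ x, ‖a x‖ ^ 2 ∂μ) ^ (1 / 2 : ℝ) * (∫ x, ‖b x‖ ^ 2 ∂μ) ^ (1 / 2 : ℝ) := by
  have h2 : ENNReal.ofReal 2 = 2 := by norm_num
  have h := integral_mul_norm_le_Lp_mul_Lq (p := 2) (q := 2) (μ := μ) (f := a) (g := b)
    Real.HolderConjugate.two_two (by rw [h2]; exact ha) (by rw [h2]; exact hb)
  simp only [Real.rpow_two] at h
  refine (norm_integral_le_integral_norm _).trans (le_trans (le_of_eq ?_) h)
  simp only [norm_mul]

theorem tendsto_mul_int {μ : Measure (Cn n)} {a : ℕ → Cn n → ℂ} {b : Cn n → ℂ}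
    (ha : ∀ j, MemLp (a j) 2 μ) (hb : MemLp b 2 μ)
    (h : Tendsto (fun j => ∫ x, ‖a j x‖ ^ 2 ∂μ) atTop (𝓝 0)) :
    Tendsto (fun j => ∫ x, a j x * b x ∂μ) atTop (𝓝 0) := by
  have h1 : Tendsto (fun j => (∫ x, ‖a j x‖ ^ 2 ∂μ) ^ (1 / 2 : ℝ) *
      (∫ x, ‖b x‖ ^ 2 ∂μ) ^ (1 / 2 : ℝ)) atTop (𝓝 0) := by
    have h2 := (h.rpow_const (p := (1 / 2 : ℝ)) (Or.inr (by norm_num))).mul_const
      ((∫ x, ‖b x‖ ^ 2 ∂μ) ^ (1 / 2 : ℝ))
    rw [Real.zero_rpow (by norm_num), zero_mul] at h2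
    exact h2
  exact squeeze_zero_norm (fun j => cs_le (ha j) hb) h1

theorem subseq {μ : Measure (Cn n)} {a : ℕ → Cn n → ℂ} {f : Cn n → ℂ}
    (ha : ∀ j, MemLp (a j) 2 μ) (hf : MemLp f 2 μ)
    (h : Tendsto (fun j => ∫ x, ‖a j x - f x‖ ^ 2 ∂μ) atTop (𝓝 0)) :
    ∃ ns : ℕ → ℕ, StrictMono ns ∧ ∀ᵐ x ∂μ, Tendsto (fun i => a (ns i) x) atTop (𝓝 (f x)) := by
  have h1 : Tendsto (fun j => eLpNorm (a j - f) 2 μ) atTop (𝓝 0) := by
    have h2 : ∀ j, eLpNorm (a j - f) 2 μ =
        ENNReal.ofReal ((∫ x, ‖a j x - f x‖ ^ 2 ∂μ) ^ (1 / 2 : ℝ)) := by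
      intro j
      rw [((ha j).sub hf).eLpNorm_eq_integral_rpow_norm (by norm_num) (by norm_num)]
      simp
    simp only [h2]
    have h3 := ENNReal.tendsto_ofReal (h.rpow_const (p := (1 / 2 : ℝ)) (Or.inr (by norm_num)))
    rwa [Real.zero_rpow (by norm_num), ENNReal.ofReal_zero] at h3
  have h4 := tendstoInMeasure_of_tendsto_eLpNorm (by norm_num) (fun j => (ha j).1) hf.1 h1
  exact h4.exists_seq_tendsto_ae

end Pool.Agent.Helper67.SP
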